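import Pool.Agent.W655.RK.Full

set_option autoImplicit false

/-! Bounds for Euler products over the primes of `(z, y]`. -/

namespace Pool.Agent.L0h54.RZ

open Finset Pool.Agent.W262.RK

lemma exp_loglog (y : ℕ) (hy : 2 ≤ y) (k : ℕ) (C : ℝ) :
    Real.exp (k * (Real.log (Real.log y) + C)) = Real.exp (k * C) * Real.log y ^ k := by
  have h1 : (0 : ℝ) < Real.log y := Real.log_pos (by exact_mod_cast hy)
  rw [mul_add, Real.exp_add, mul_comm, Real.exp_nat_mul (Real.log (Real.log y)), Real.exp_log h1]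

lemma up_c (k : ℕ) (c : ℝ) (hc : c = k) : ∃ C1 : ℝ, 0 < C1 ∧ ∀ z y : ℕ, 2 ≤ y →
    ∏ p ∈ PS z y, (1 + c * (1 / (p : ℝ))) ≤ C1 * Real.log y ^ k := by
  obtain ⟨C, hC0, hC⟩ := Pool.Agent.W655.RK.mertens
  refine ⟨Real.exp (k * C), Real.exp_pos _, fun z y hy => ?_⟩
  have hc0 : 0 ≤ c := by rw [hc]; positivity
  refine (Pool.Agent.W655.RK.prod_le_exp (PS z y) (fun p => c * (1 / (p : ℝ)))
    (fun p _ => by positivity)).trans ?_
  rw [← exp_loglog y hy k C, Real.exp_le_exp, ← mul_sum, hc]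
  exact mul_le_mul_of_nonneg_left (hC z y hy) (Nat.cast_nonneg k)

lemma exp_le_lin (x : ℝ) (h0 : 0 ≤ x) (h1 : x ≤ 1) : Real.exp x ≤ 1 + 2 * x := by
  have h2 := Real.abs_exp_sub_one_sub_id_le (x := x) (by rw [abs_of_nonneg h0]; exact h1)
  have h3 := (abs_le.1 h2).2
  nlinarith

lemma up_rankin : ∃ C1 : ℝ, 0 < C1 ∧ ∀ z y : ℕ, 2 ≤ y →
    ∏ p ∈ PS z y, (1 + 3 * ((p : ℝ) ^ (1 / Real.log y) / p)) ≤ C1 * Real.log y ^ 3 := by
  obtain ⟨C, hC0, hC⟩ := Pool.Agent.W655.RK.mertens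
  obtain ⟨C', hC'⟩ := Pool.Agent.Helper256.KM.mertens_log
  have hl2 : (0 : ℝ) < Real.log 2 := Real.log_pos (by norm_num)
  obtain ⟨B, hB⟩ : ∃ B, B = C + 2 * (1 + |C'| / Real.log 2) := ⟨_, rfl⟩
  refine ⟨Real.exp (3 * B), Real.exp_pos _, fun z y hy => ?_⟩
  have hy0 : (0 : ℝ) < y := by positivity
  have hL : (0 : ℝ) < Real.log y := Real.log_pos (by exact_mod_cast hy)
  have hL2 : Real.log 2 ≤ Real.log y := Real.log_le_log (by norm_num) (by exact_mod_cast hy)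
  refine (Pool.Agent.W655.RK.prod_le_exp (PS z y)
    (fun p => 3 * ((p : ℝ) ^ (1 / Real.log y) / p)) (fun p _ => by positivity)).trans ?_
  have e3 : Real.exp (3 * B) * Real.log y ^ 3 = Real.exp ((3 : ℕ) * (Real.log (Real.log y) + B)) := by
    rw [exp_loglog y hy 3 B]; norm_num
  rw [e3, Real.exp_le_exp, ← mul_sum]
  push_cast
  apply mul_le_mul_of_nonneg_left _ (by norm_num : (0:ℝ) ≤ 3)
  have h1 : ∀ p ∈ PS z y, (p : ℝ) ^ (1 / Real.log y) / p ≤
      1 / p + 2 / Real.log y * (Real.log p / p) := by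
    intro p hp
    have hp1 := (Pool.Agent.W655.RK.PS_prime hp).one_lt
    have hpy := Pool.Agent.W655.RK.PS_le hp
    have hp0 : (0 : ℝ) < p := by positivity
    have hlp : 0 ≤ Real.log p := Real.log_natCast_nonneg p
    have h2 : (p : ℝ) ^ (1 / Real.log y) ≤ 1 + 2 * (Real.log p * (1 / Real.log y)) := by
      rw [Real.rpow_def_of_pos hp0]
      apply exp_le_lin _ (by positivity)
      rw [mul_one_div, div_le_one hL]
      exact Real.log_le_log hp0 (by exact_mod_cast hpy)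
    calc (p : ℝ) ^ (1 / Real.log y) / p ≤ (1 + 2 * (Real.log p * (1 / Real.log y))) / p := by gcongr
      _ = 1 / p + 2 / Real.log y * (Real.log p / p) := by ring
  refine (sum_le_sum h1).trans ?_
  rw [sum_add_distrib, ← mul_sum]
  have h4 : ∑ p ∈ PS z y, Real.log p / p ≤ Real.log y + |C'| := by
    have h5 : ∑ p ∈ PS z y, Real.log p / (p : ℝ) ≤
        ∑ p ∈ (Finset.Icc 1 y).filter Nat.Prime, Real.log p / (p : ℝ) := by
      apply sum_le_sum_of_subset_of_nonneg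
      · intro p hp
        exact mem_filter.2 ⟨mem_Icc.2 ⟨(Pool.Agent.W655.RK.PS_prime hp).one_lt.le,
          Pool.Agent.W655.RK.PS_le hp⟩, Pool.Agent.W655.RK.PS_prime hp⟩
      · intro p _ _
        exact div_nonneg (Real.log_natCast_nonneg p) (Nat.cast_nonneg p)
    have h6 := (abs_le.1 (hC' y (by omega))).2
    have := le_abs_self C'
    linarith
  have h7 : 2 / Real.log y * ∑ p ∈ PS z y, Real.log p / (p : ℝ) ≤ 2 * (1 + |C'| / Real.log 2) := by
    calc 2 / Real.log y * ∑ p ∈ PS z y, Real.log p / (p : ℝ) ≤ 2 / Real.log y * (Real.log y + |C'|) := by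
          apply mul_le_mul_of_nonneg_left h4 (by positivity)
      _ = 2 * (1 + |C'| / Real.log y) := by field_simp
      _ ≤ 2 * (1 + |C'| / Real.log 2) := by
          have : |C'| / Real.log y ≤ |C'| / Real.log 2 :=
            div_le_div_of_nonneg_left (abs_nonneg _) hl2 hL2
          linarith
  have h8 := hC z y hy
  rw [hB]
  linarith

lemma log_low (x : ℝ) (hx : 0 ≤ x) : x - x ^ 2 / 2 ≤ Real.log (1 + x) := by
  have h1 := Real.le_log_one_add_of_nonneg hx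
  refine le_trans ?_ h1
  rw [le_div_iff₀ (by linarith)]
  nlinarith [pow_nonneg hx 3]

lemma low (z : ℕ) : ∃ c0 : ℝ, 0 < c0 ∧ ∀ y : ℕ, 3 ≤ y →
    c0 * Real.log y ^ 3 ≤ ∏ p ∈ PS z y, (1 + 3 * (1 / (p : ℝ))) := by
  obtain ⟨C, hC⟩ := Pool.Agent.Helper256.KM.mertens_inv
  obtain ⟨K, hK0, hK⟩ := Pool.Agent.W655.RK.sum_inv_sq
  obtain ⟨Z, hZ⟩ : ∃ Z, Z = ∑ p ∈ (Finset.Icc 1 z).filter Nat.Prime, (1 : ℝ) / p := ⟨_, rfl⟩
  obtain ⟨B, hB⟩ : ∃ B, B = -(C + Z + 3 / 2 * K) := ⟨_, rfl⟩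
  refine ⟨Real.exp (3 * B), Real.exp_pos _, fun y hy => ?_⟩
  have e3 : Real.exp (3 * B) * Real.log y ^ 3 = Real.exp ((3 : ℕ) * (Real.log (Real.log y) + B)) := by
    rw [exp_loglog y (by omega) 3 B]; norm_num
  have hpr : ∏ p ∈ PS z y, (1 + 3 * (1 / (p : ℝ))) =
      Real.exp (∑ p ∈ PS z y, Real.log (1 + 3 * (1 / (p : ℝ)))) := by
    rw [Real.exp_sum]
    apply prod_congr rfl
    intro p _
    rw [Real.exp_log (by positivity)]
  rw [e3, hpr, Real.exp_le_exp]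
  push_cast
  have h1 : ∀ p ∈ PS z y, 3 * (1 / (p : ℝ)) - 9 / 2 * (1 / (p : ℝ) ^ 2) ≤
      Real.log (1 + 3 * (1 / (p : ℝ))) := by
    intro p _
    have := log_low (3 * (1 / (p : ℝ))) (by positivity)
    refine le_trans (le_of_eq ?_) this
    ring
  refine le_trans ?_ (sum_le_sum h1)
  rw [sum_sub_distrib, ← mul_sum, ← mul_sum]
  have h2 := hK (PS z y)
  have h3 : Real.log (Real.log y) - C - Z ≤ ∑ p ∈ PS z y, 1 / (p : ℝ) := by
    have h4 : ∑ p ∈ (Finset.Icc 1 y).filter Nat.Prime, (1 : ℝ) / p ≤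
        ∑ p ∈ (Finset.Icc 1 z).filter Nat.Prime ∪ PS z y, (1 : ℝ) / p := by
      apply sum_le_sum_of_subset_of_nonneg
      · intro p hp
        rw [mem_filter, mem_Icc] at hp
        rw [mem_union]
        unfold PS
        rw [mem_filter, mem_filter, mem_Icc, mem_Ioc]
        by_cases h : p ≤ z
        · left; exact ⟨⟨hp.1.1, h⟩, hp.2⟩
        · right; exact ⟨⟨by omega, hp.1.2⟩, hp.2⟩
      · intro p _ _
        positivity
    have h5 : ∑ p ∈ (Finset.Icc 1 z).filter Nat.Prime ∪ PS z y, (1 : ℝ) / p ≤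
        ∑ p ∈ (Finset.Icc 1 z).filter Nat.Prime, (1 : ℝ) / p + ∑ p ∈ PS z y, (1 : ℝ) / p := by
      have h6 := sum_union_inter (s₁ := (Finset.Icc 1 z).filter Nat.Prime) (s₂ := PS z y)
        (f := fun p : ℕ => (1 : ℝ) / p)
      have h7 : (0 : ℝ) ≤ ∑ p ∈ (Finset.Icc 1 z).filter Nat.Prime ∩ PS z y, (1 : ℝ) / p :=
        sum_nonneg fun p _ => by positivity
      linarith
    have h6 := (abs_le.1 (hC y hy)).1
    rw [hZ]
    linarith
  rw [hB]
  linarith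

end Pool.Agent.L0h54.RZ
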