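import Pool.Agent.L0h94.FT.Om
import Pool.Agent.W655.RK.Full

set_option autoImplicit false

/-! Sums over sparse sets of large numbers. -/

namespace Pool.Agent.L0h54.RZ

open Finset

lemma sparse_sum : ∃ C : ℝ, 0 < C ∧ ∀ (D : Finset ℕ) (T : ℝ), 1 ≤ T → (∀ e ∈ D, T < (e : ℝ)) →
    (∀ x : ℕ, ((D.filter (fun e => e ≤ x)).card : ℝ) ≤ (x : ℝ) ^ (1 / 4 : ℝ)) →
    ∑ e ∈ D, 3 ^ e.primeFactors.card / (e : ℝ) ≤ C / T ^ (1 / 4 : ℝ) := by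
  obtain ⟨C3, hC3, hom⟩ := Pool.Agent.L0h94.FT.om_le 3 (1 / 4) (by norm_num) (by norm_num)
  obtain ⟨K, hK0, hK⟩ := Pool.Agent.W655.RK.sum_inv_sq
  refine ⟨C3 * (K + 1), by positivity, fun D T hT hD hcnt => ?_⟩
  have hT0 : 0 < T := by linarith
  obtain ⟨k, hk⟩ : ∃ k : ℕ → ℕ, k = fun e => (D.filter (fun e' => e' ≤ e)).card := ⟨_, rfl⟩
  have hkpos : ∀ e ∈ D, 1 ≤ k e := by
    intro e he
    rw [hk]
    exact card_pos.2 ⟨e, mem_filter.2 ⟨he, le_rfl⟩⟩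
  have hkinj : Set.InjOn k D := by
    intro e he e' he' h
    by_contra hne
    have key : ∀ a b : ℕ, b ∈ D → a < b → k a < k b := by
      intro a b hb hab
      rw [hk]
      apply card_lt_card
      rw [Finset.ssubset_iff_of_subset]
      · exact ⟨b, mem_filter.2 ⟨hb, le_rfl⟩, fun h => absurd (mem_filter.1 h).2 (by omega)⟩
      · intro x hx
        rw [mem_filter] at hx ⊢
        exact ⟨hx.1, by omega⟩
    rcases lt_or_gt_of_ne hne with h1 | h1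
    · have := key e e' he' h1; omega
    · have := key e' e he h1; omega
  have h1 : ∀ e ∈ D, 3 ^ e.primeFactors.card / (e : ℝ) ≤
      C3 / T ^ (1 / 4 : ℝ) * (1 / ((k e : ℕ) : ℝ) ^ 2) := by
    intro e he
    have he0 : (0 : ℝ) < e := hT0.trans (hD e he)
    have hen : e ≠ 0 := by rintro rfl; simp at he0
    have h2 := hom e hen
    have h3 : ((k e : ℕ) : ℝ) ≤ (e : ℝ) ^ (1 / 4 : ℝ) := by rw [hk]; exact hcnt e
    have hk0 : (0 : ℝ) < k e := by exact_mod_cast hkpos e he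
    have h4 : ((k e : ℕ) : ℝ) ^ 2 ≤ (e : ℝ) ^ (1 / 2 : ℝ) := by
      calc ((k e : ℕ) : ℝ) ^ 2 ≤ ((e : ℝ) ^ (1 / 4 : ℝ)) ^ 2 := by gcongr
        _ = (e : ℝ) ^ (1 / 2 : ℝ) := by
          rw [← Real.rpow_natCast, ← Real.rpow_mul he0.le]; norm_num
    have h5 : T ^ (1 / 4 : ℝ) ≤ (e : ℝ) ^ (1 / 4 : ℝ) :=
      Real.rpow_le_rpow hT0.le (hD e he).le (by norm_num)
    have e1 : (e : ℝ) = (e : ℝ) ^ (1 / 4 : ℝ) * ((e : ℝ) ^ (1 / 4 : ℝ) * (e : ℝ) ^ (1 / 2 : ℝ)) := by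
      rw [← Real.rpow_add he0, ← Real.rpow_add he0]
      norm_num
    have hTp : 0 < T ^ (1 / 4 : ℝ) := by positivity
    calc 3 ^ e.primeFactors.card / (e : ℝ) ≤ C3 * (e : ℝ) ^ (1 / 4 : ℝ) / (e : ℝ) := by gcongr
      _ = C3 / ((e : ℝ) ^ (1 / 4 : ℝ) * (e : ℝ) ^ (1 / 2 : ℝ)) := by
        conv_lhs => rw [e1]
        have : (e : ℝ) ^ (1 / 4 : ℝ) ≠ 0 := by positivity
        rw [← e1]
        conv_lhs => rhs; rw [e1]
        field_simp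
      _ ≤ C3 / (T ^ (1 / 4 : ℝ) * ((k e : ℕ) : ℝ) ^ 2) := by gcongr
      _ = C3 / T ^ (1 / 4 : ℝ) * (1 / ((k e : ℕ) : ℝ) ^ 2) := by field_simp
  refine (sum_le_sum h1).trans ?_
  rw [← mul_sum]
  have h2 : ∑ e ∈ D, 1 / ((k e : ℕ) : ℝ) ^ 2 = ∑ j ∈ D.image k, 1 / (j : ℝ) ^ 2 := by
    rw [sum_image hkinj]
  rw [h2]
  have h3 := hK (D.image k)
  calc C3 / T ^ (1 / 4 : ℝ) * ∑ j ∈ D.image k, 1 / (j : ℝ) ^ 2 ≤ C3 / T ^ (1 / 4 : ℝ) * (K + 1) := by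
        apply mul_le_mul_of_nonneg_left (by linarith) (by positivity)
    _ = C3 * (K + 1) / T ^ (1 / 4 : ℝ) := by ring

end Pool.Agent.L0h54.RZ
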