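import Pool.Agent.L0h54.RZ.Tup
import Pool.Agent.L0h54.RZ.Eul
import Pool.Agent.L0h54.RZ.Spa

set_option autoImplicit false

/-! RZ, part MASS: the mass of the states with bounded coranks. -/

namespace Pool.Agent.L0h54.RZ

open Finset Pool.Agent.W262.RK Pool.Agent.L0h94.RZ
open scoped Classical

/-- the proportion of the sets of bits with coranks at most `K` -/
noncomputable def AA (K : ℕ) (s : Fin 3 → ℕ) : ℝ := (1 / 2) ^ (∏ i, s i).primeFactors.card *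
  (((∏ i, s i).primeFactors.powerset.filter (fun E => ∀ o, corkS o s E ≤ K)).card : ℝ)

/-- the average of `2 ^ corank` -/
noncomputable def VV (o : Bool) (s : Fin 3 → ℕ) : ℝ := (1 / 2) ^ (∏ i, s i).primeFactors.card *
  ∑ E ∈ (∏ i, s i).primeFactors.powerset, (2 : ℝ) ^ corkS o s E

lemma AA_nonneg (K : ℕ) (s : Fin 3 → ℕ) : 0 ≤ AA K s := by unfold AA; positivity

lemma AA_le (K : ℕ) (s : Fin 3 → ℕ) : AA K s ≤ 1 := by
  unfold AA
  have h1 : (((∏ i, s i).primeFactors.powerset.filter (fun E => ∀ o, corkS o s E ≤ K)).card : ℝ) ≤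
      2 ^ (∏ i, s i).primeFactors.card := by
    have := card_filter_le (∏ i, s i).primeFactors.powerset (fun E => ∀ o, corkS o s E ≤ K)
    rw [card_powerset] at this
    exact_mod_cast this
  calc _ ≤ (1 / 2 : ℝ) ^ (∏ i, s i).primeFactors.card * 2 ^ (∏ i, s i).primeFactors.card := by gcongr
    _ = 1 := by rw [← mul_pow]; norm_num

lemma AA_low (K : ℕ) (s : Fin 3 → ℕ) : 1 - AA K s ≤ (VV false s + VV true s) / 2 ^ (K + 1) := by
  unfold AA VV
  obtain ⟨P, hP⟩ : ∃ P, P = (∏ i, s i).primeFactors := ⟨_, rfl⟩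
  rw [← hP]
  have h1 : (1 / 2 : ℝ) ^ P.card * ((P.powerset.filter (fun E => ∀ o, corkS o s E ≤ K)).card : ℝ) +
      (1 / 2 : ℝ) ^ P.card * ((P.powerset.filter (fun E => ¬ ∀ o, corkS o s E ≤ K)).card : ℝ) = 1 := by
    rw [← mul_add]
    have h2 := card_filter_add_card_filter_not (s := P.powerset) (fun E => ∀ o, corkS o s E ≤ K)
    rw [card_powerset] at h2
    have h3 : ((P.powerset.filter (fun E => ∀ o, corkS o s E ≤ K)).card : ℝ) +
        ((P.powerset.filter (fun E => ¬ ∀ o, corkS o s E ≤ K)).card : ℝ) = 2 ^ P.card := by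
      exact_mod_cast h2
    rw [h3, ← mul_pow]
    norm_num
  have h4 : (2 : ℝ) ^ (K + 1) * ((P.powerset.filter (fun E => ¬ ∀ o, corkS o s E ≤ K)).card : ℝ) ≤
      ∑ E ∈ P.powerset, (2 : ℝ) ^ corkS false s E + ∑ E ∈ P.powerset, (2 : ℝ) ^ corkS true s E := by
    rw [← sum_add_distrib, mul_comm, ← nsmul_eq_mul, ← sum_const, sum_filter]
    apply sum_le_sum
    intro E _
    have hf : (0 : ℝ) < 2 ^ corkS false s E := by positivity
    have ht : (0 : ℝ) < 2 ^ corkS true s E := by positivity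
    by_cases h : ∀ o, corkS o s E ≤ K
    · rw [if_neg (not_not.2 h)]
      linarith
    · rw [if_pos h]
      push Not at h
      obtain ⟨o, ho⟩ := h
      have h5 : (2 : ℝ) ^ (K + 1) ≤ 2 ^ corkS o s E := pow_le_pow_right₀ (by norm_num) (by omega)
      cases o
      · linarith
      · linarith
  have h6 : (0 : ℝ) < 2 ^ (K + 1) := by positivity
  rw [← mul_add, mul_div_assoc]
  have h7 : 1 - (1 / 2 : ℝ) ^ P.card * ((P.powerset.filter (fun E => ∀ o, corkS o s E ≤ K)).card : ℝ) =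
      (1 / 2 : ℝ) ^ P.card * ((P.powerset.filter (fun E => ¬ ∀ o, corkS o s E ≤ K)).card : ℝ) := by
    linarith
  rw [h7]
  apply mul_le_mul_of_nonneg_left _ (by positivity)
  rw [le_div_iff₀ h6, mul_comm]
  exact h4

lemma Tup_mono {z y : ℕ} (hz : 3 ≤ z) : Tup (Fin 3) z y ⊆ Tup (Fin 3) 3 y := by
  have h0 : PP z y ∣ PP 3 y := by
    unfold PP
    apply prod_dvd_prod_of_subset
    unfold PS
    intro p hp
    rw [mem_filter, mem_Ioc] at hp ⊢
    exact ⟨⟨by omega, hp.1.2⟩, hp.2⟩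
  have h1 : PP 3 y ≠ 0 := by
    unfold PP
    rw [prod_ne_zero_iff]
    intro p hp
    exact (Pool.Agent.W655.RK.PS_prime hp).ne_zero
  intro s hs
  rw [Pool.Agent.W108.RK.mem_Tup] at hs ⊢
  exact ⟨fun i => (hs.1 i).trans h0, hs.2⟩

/-- the mass of the good states, for given parameters -/
lemma mass_low (K z y : ℕ) (hz : 3 ≤ z) (D : Finset ℕ) (hD : ∀ e ∈ D, 0 < e) (U M t : ℝ) (hU : 0 < U)
    (hM : 0 < M) (ht : 0 ≤ t) :
    ∑ s ∈ Tup (Fin 3) z y, wt s - (∑ s ∈ Tup (Fin 3) z y, wt s * ((∏ i, s i : ℕ) : ℝ) ^ t) / U ^ t -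
      (∑ s ∈ Tup (Fin 3) z y, wt s * 2 ^ (∏ i, s i).primeFactors.card) / M -
      (∑ e ∈ D, 3 ^ e.primeFactors.card / (e : ℝ)) * ∑ s ∈ Tup (Fin 3) z y, wt s -
      ((∑ s ∈ Tup (Fin 3) z y, wt s * VV false s) + ∑ s ∈ Tup (Fin 3) z y, wt s * VV true s) /
        2 ^ (K + 1) ≤
    ∑ s ∈ (Tup (Fin 3) 3 y).filter (fun s => ((∏ i, s i : ℕ) : ℝ) ≤ U ∧
        (2 : ℝ) ^ (∏ i, s i).primeFactors.card ≤ M ∧ Cln D (∏ i, s i)),
      (1 / ((∏ i, s i : ℕ) : ℝ)) * AA K s := by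
  have h1 : ∑ s ∈ (Tup (Fin 3) z y).filter (fun s => ((∏ i, s i : ℕ) : ℝ) ≤ U ∧
        (2 : ℝ) ^ (∏ i, s i).primeFactors.card ≤ M ∧ Cln D (∏ i, s i)), wt s * AA K s ≤
      ∑ s ∈ (Tup (Fin 3) 3 y).filter (fun s => ((∏ i, s i : ℕ) : ℝ) ≤ U ∧
        (2 : ℝ) ^ (∏ i, s i).primeFactors.card ≤ M ∧ Cln D (∏ i, s i)),
      (1 / ((∏ i, s i : ℕ) : ℝ)) * AA K s := by
    apply sum_le_sum_of_subset_of_nonneg (filter_subset_filter _ (Tup_mono hz))
    intro s _ _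
    exact mul_nonneg (wt_nonneg s) (AA_nonneg K s)
  refine le_trans ?_ h1
  rw [sum_filter]
  -- divisors
  have hdiv : ∑ s ∈ Tup (Fin 3) z y, wt s * ((D.filter (fun e => e ∣ ∏ i, s i)).card : ℝ) ≤
      (∑ e ∈ D, 3 ^ e.primeFactors.card / (e : ℝ)) * ∑ s ∈ Tup (Fin 3) z y, wt s := by
    have e1 : ∀ s ∈ Tup (Fin 3) z y, wt s * ((D.filter (fun e => e ∣ ∏ i, s i)).card : ℝ) =
        ∑ e ∈ D, if e ∣ ∏ i, s i then wt s else 0 := by
      intro s _
      rw [← sum_filter, sum_const, nsmul_eq_mul, mul_comm]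
    rw [sum_congr rfl e1, sum_comm, sum_mul]
    apply sum_le_sum
    intro e he
    rw [← sum_filter, sum_wt]
    exact sum_div z y e (hD e he)
  have hpt : ∀ s ∈ Tup (Fin 3) z y, wt s - wt s * ((∏ i, s i : ℕ) : ℝ) ^ t / U ^ t -
      wt s * 2 ^ (∏ i, s i).primeFactors.card / M -
      wt s * ((D.filter (fun e => e ∣ ∏ i, s i)).card : ℝ) -
      (wt s * VV false s + wt s * VV true s) / 2 ^ (K + 1) ≤
      if ((∏ i, s i : ℕ) : ℝ) ≤ U ∧ (2 : ℝ) ^ (∏ i, s i).primeFactors.card ≤ M ∧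
        Cln D (∏ i, s i) then wt s * AA K s else 0 := by
    intro s _
    have hw := wt_nonneg s
    obtain ⟨P, hP⟩ : ∃ P : ℝ, P = ((∏ i, s i : ℕ) : ℝ) := ⟨_, rfl⟩
    have hP0 : 0 ≤ P := by rw [hP]; positivity
    have hr1 : 0 ≤ P ^ t / U ^ t := by positivity
    have hr2 : (0 : ℝ) ≤ 2 ^ (∏ i, s i).primeFactors.card / M := by positivity
    have hr3 : (0 : ℝ) ≤ ((D.filter (fun e => e ∣ ∏ i, s i)).card : ℝ) := Nat.cast_nonneg _
    have hA := AA_low K s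
    have hA0 := AA_nonneg K s
    have hA1 := AA_le K s
    have e1 : wt s - wt s * P ^ t / U ^ t - wt s * 2 ^ (∏ i, s i).primeFactors.card / M -
        wt s * ((D.filter (fun e => e ∣ ∏ i, s i)).card : ℝ) -
        (wt s * VV false s + wt s * VV true s) / 2 ^ (K + 1) =
        wt s * (1 - (VV false s + VV true s) / 2 ^ (K + 1) - P ^ t / U ^ t -
          2 ^ (∏ i, s i).primeFactors.card / M -
          ((D.filter (fun e => e ∣ ∏ i, s i)).card : ℝ)) := by ring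
    rw [← hP, e1]
    split_ifs with hG
    · apply mul_le_mul_of_nonneg_left _ hw
      linarith
    · apply mul_nonpos_of_nonneg_of_nonpos hw
      have hbig : 1 ≤ P ^ t / U ^ t + 2 ^ (∏ i, s i).primeFactors.card / M +
          ((D.filter (fun e => e ∣ ∏ i, s i)).card : ℝ) := by
        by_cases g1 : P ≤ U
        · by_cases g2 : (2 : ℝ) ^ (∏ i, s i).primeFactors.card ≤ M
          · have g3 : ¬ Cln D (∏ i, s i) := fun h => hG ⟨g1, g2, h⟩
            unfold Cln at g3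
            push Not at g3
            obtain ⟨e, he, hed⟩ := g3
            have : 1 ≤ (D.filter (fun e => e ∣ ∏ i, s i)).card :=
              card_pos.2 ⟨e, mem_filter.2 ⟨he, hed⟩⟩
            have : (1 : ℝ) ≤ ((D.filter (fun e => e ∣ ∏ i, s i)).card : ℝ) := by exact_mod_cast this
            linarith
          · have : 1 ≤ (2 : ℝ) ^ (∏ i, s i).primeFactors.card / M := by
              rw [one_le_div hM]; exact (not_le.1 g2).le
            linarith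
        · have : 1 ≤ P ^ t / U ^ t := by
            rw [one_le_div (by positivity)]
            exact Real.rpow_le_rpow hU.le (not_le.1 g1).le ht
          linarith
      linarith
  refine le_trans ?_ (sum_le_sum hpt)
  rw [sum_sub_distrib, sum_sub_distrib, sum_sub_distrib, sum_sub_distrib, ← Finset.sum_div,
    ← Finset.sum_div, ← Finset.sum_div, sum_add_distrib]
  linarith

theorem mass (hSM : S_SM) : S_MASS := by
  obtain ⟨z0, hz0⟩ := hSM
  obtain ⟨z, hzd⟩ : ∃ z, z = max z0 8 := ⟨_, rfl⟩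
  have hz8 : 8 ≤ z := by rw [hzd]; exact le_max_right _ _
  obtain ⟨C, hC⟩ := hz0 z (by rw [hzd]; exact le_max_left _ _)
  obtain ⟨c0, hc0, hlow⟩ := low z
  obtain ⟨C1, hC1, hrank⟩ := up_rankin
  obtain ⟨C1', hC1', hup⟩ := up_c 3 3 (by norm_num)
  obtain ⟨C2, hC2, hsix⟩ := up_c 6 6 (by norm_num)
  obtain ⟨C4, hC4, hspa⟩ := sparse_sum
  obtain ⟨K, hK⟩ : ∃ K : ℕ, 8 * |C| / c0 ≤ (2 : ℝ) ^ K := by
    obtain ⟨K, hK⟩ := pow_unbounded_of_one_lt (8 * |C| / c0) (by norm_num : (1 : ℝ) < 2)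
    exact ⟨K, hK.le⟩
  obtain ⟨κ, hκ⟩ : ∃ κ, κ = max 1 (Real.log (8 * C1 / c0)) := ⟨_, rfl⟩
  have hκ1 : 1 ≤ κ := by rw [hκ]; exact le_max_left _ _
  have hκ2 : C1 / Real.exp κ ≤ c0 / 8 := by
    have h1 : Real.log (8 * C1 / c0) ≤ κ := by rw [hκ]; exact le_max_right _ _
    have h2 : 8 * C1 / c0 ≤ Real.exp κ := by
      rw [← Real.log_le_iff_le_exp (by positivity)]; exact h1
    rw [div_le_iff₀ hc0] at h2
    rw [div_le_iff₀ (Real.exp_pos _)]
    linarith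
  refine ⟨K, fun δ hδ => ?_⟩
  obtain ⟨θ, hθ⟩ : ∃ θ, θ = δ / (2 * κ) := ⟨_, rfl⟩
  have hθ0 : 0 < θ := by rw [hθ]; positivity
  have h2θ : 2 * θ * κ = δ := by rw [hθ]; field_simp
  refine ⟨c0 / 2 * θ ^ 3, by positivity, ?_⟩
  obtain ⟨l0, hl0⟩ : ∃ l0 : ℝ, l0 = 1 + 8 * C2 * (2 * θ) ^ 3 / c0 + 8 * C4 * C1' / c0 +
      Real.log (z + 4) / θ := ⟨_, rfl⟩
  obtain ⟨X0, hX0⟩ := exists_nat_ge (Real.exp l0)
  refine ⟨X0, fun X hX => ?_⟩
  have hlX : l0 ≤ Real.log X := by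
    have h1 : Real.exp l0 ≤ X := hX0.trans (by exact_mod_cast hX)
    rwa [← Real.le_log_iff_exp_le (lt_of_lt_of_le (Real.exp_pos _) h1)] at h1
  have hXpos : (0 : ℝ) < X := lt_of_lt_of_le (Real.exp_pos _) (hX0.trans (by exact_mod_cast hX))
  obtain ⟨l, hl⟩ : ∃ l, l = Real.log X := ⟨_, rfl⟩
  rw [← hl] at hlX
  have hz4 : (0 : ℝ) ≤ Real.log (z + 4) := Real.log_nonneg (by have : (0:ℝ) ≤ z := Nat.cast_nonneg z; linarith)
  have p1 : 0 ≤ 8 * C2 * (2 * θ) ^ 3 / c0 := by positivity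
  have p2 : 0 ≤ 8 * C4 * C1' / c0 := by positivity
  have p3 : 0 ≤ Real.log (z + 4) / θ := by positivity
  have hl1 : 1 ≤ l := by rw [hl0] at hlX; linarith
  have hlC2 : 8 * C2 * (2 * θ) ^ 3 / c0 ≤ l := by rw [hl0] at hlX; linarith
  have hlC4 : 8 * C4 * C1' / c0 ≤ l := by rw [hl0] at hlX; linarith
  have hlz : Real.log (z + 4) / θ ≤ l := by rw [hl0] at hlX; linarith
  have hl0' : 0 < l := by linarith
  -- the size of `y`
  have hrp : ∀ a : ℝ, (X : ℝ) ^ a = Real.exp (l * a) := by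
    intro a; rw [Real.rpow_def_of_pos hXpos, hl]
  obtain ⟨W, hW⟩ : ∃ W, W = (X : ℝ) ^ θ := ⟨_, rfl⟩
  have hWz : (z : ℝ) + 4 ≤ W := by
    rw [hW, hrp, ← Real.log_le_iff_le_exp (by positivity)]
    rw [div_le_iff₀ hθ0] at hlz
    exact hlz
  have hW2 : (X : ℝ) ^ (2 * θ) = W ^ 2 := by
    rw [hW, hrp, hrp, ← Real.exp_nat_mul]
    congr 1; push_cast; ring
  have hzn : (0 : ℝ) ≤ z := Nat.cast_nonneg z
  obtain ⟨y, hy⟩ : ∃ y, y = ⌊(X : ℝ) ^ (2 * θ)⌋₊ := ⟨_, rfl⟩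
  have hyle : (y : ℝ) ≤ (X : ℝ) ^ (2 * θ) := by rw [hy]; exact Nat.floor_le (by positivity)
  have hyge : W ≤ (y : ℝ) := by
    have h1 := Nat.lt_floor_add_one ((X : ℝ) ^ (2 * θ))
    rw [← hy, hW2] at h1
    nlinarith
  have hyz : z < y := by
    have : (z : ℝ) < y := by linarith
    exact_mod_cast this
  have hy3 : 3 ≤ y := by omega
  have hy0 : (0 : ℝ) < y := by linarith
  obtain ⟨L, hL⟩ : ∃ L, L = Real.log y := ⟨_, rfl⟩
  have hLlow : θ * l ≤ L := by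
    rw [hL, Real.le_log_iff_exp_le hy0]
    calc Real.exp (θ * l) = W := by rw [hW, hrp]; congr 1; ring
      _ ≤ y := hyge
  have hLup : L ≤ 2 * θ * l := by
    rw [hL, Real.log_le_iff_le_exp hy0]
    refine hyle.trans (le_of_eq ?_)
    rw [hrp]; congr 1; ring
  have hL0 : 0 < L := lt_of_lt_of_le (by positivity) hLlow
  refine ⟨y, ?_, fun D hD => ?_⟩
  · refine hyle.trans ?_
    rw [hrp, hrp, Real.exp_le_exp]
    apply mul_le_mul_of_nonneg_left _ hl0'.le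
    nlinarith
  obtain ⟨hDlarge, hDcnt⟩ := hD
  have hDpos : ∀ e ∈ D, 0 < e := by
    intro e he
    have h1 := hDlarge e he
    rw [← hl] at h1
    have : (0 : ℝ) < e := lt_of_le_of_lt (by positivity) h1
    exact_mod_cast this
  have hmain := mass_low K z y (by omega) D hDpos ((X : ℝ) ^ δ) (Real.log X ^ 19) (1 / L)
    (by positivity) (by rw [← hl]; positivity) (by positivity)
  have hgoal : ∑ s ∈ (Tup (Fin 3) 3 y).filter (fun s => ((∏ i, s i : ℕ) : ℝ) ≤ (X : ℝ) ^ δ ∧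
        (2 : ℝ) ^ (∏ i, s i).primeFactors.card ≤ Real.log X ^ 19 ∧ Cln D (∏ i, s i)),
      (1 / ((∏ i, s i : ℕ) : ℝ)) * AA K s = ∑ s ∈ (Tup (Fin 3) 3 y).filter (fun s => ((∏ i, s i : ℕ) : ℝ) ≤ (X : ℝ) ^ δ ∧
        (2 : ℝ) ^ (∏ i, s i).primeFactors.card ≤ Real.log X ^ 19 ∧ Cln D (∏ i, s i)),
      (1 / ((∏ i, s i : ℕ) : ℝ)) * ((1 / 2) ^ (∏ i, s i).primeFactors.card *
        (((∏ i, s i).primeFactors.powerset.filter
          (fun E => ∀ o, corkS o s E ≤ K)).card : ℝ)) := by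
    apply sum_congr rfl
    intro s _
    rfl
  rw [← hgoal]
  refine le_trans ?_ hmain
  -- the five terms
  have t0 : c0 * L ^ 3 ≤ ∑ s ∈ Tup (Fin 3) z y, wt s := by
    rw [sum_wt, hL]; exact hlow y hy3
  have t0' : ∑ s ∈ Tup (Fin 3) z y, wt s ≤ C1' * L ^ 3 := by
    rw [sum_wt, hL]; exact hup z y (by omega)
  have t1 : (∑ s ∈ Tup (Fin 3) z y, wt s * ((∏ i, s i : ℕ) : ℝ) ^ (1 / L)) / ((X : ℝ) ^ δ) ^ (1 / L) ≤
      c0 / 8 * L ^ 3 := by
    rw [sum_rankin, hL]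
    have h1 := hrank z y (by omega)
    have h2 : Real.exp κ ≤ ((X : ℝ) ^ δ) ^ (1 / Real.log y) := by
      rw [← Real.rpow_mul hXpos.le, hrp, Real.exp_le_exp, ← hL]
      have h3 : κ * L ≤ l * δ := by
        rw [← h2θ]
        nlinarith
      rw [mul_one_div, mul_div_assoc', le_div_iff₀ hL0]
      exact h3
    have h4 : 0 < Real.exp κ := Real.exp_pos _
    calc _ ≤ (C1 * Real.log y ^ 3) / Real.exp κ := by
          apply div_le_div₀ (by rw [← hL]; positivity) h1 h4 h2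
      _ = C1 / Real.exp κ * Real.log y ^ 3 := by ring
      _ ≤ c0 / 8 * Real.log y ^ 3 := by
          apply mul_le_mul_of_nonneg_right hκ2 (by rw [← hL]; positivity)
  have t2 : (∑ s ∈ Tup (Fin 3) z y, wt s * 2 ^ (∏ i, s i).primeFactors.card) / Real.log X ^ 19 ≤
      c0 / 8 * L ^ 3 := by
    rw [sum_omega, ← hl]
    have h1 : ∏ p ∈ PS z y, (1 + 3 * (2 * (1 / (p : ℝ)))) ≤ C2 * L ^ 6 := by
      rw [hL]
      refine le_trans (le_of_eq ?_) (hsix z y (by omega))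
      apply prod_congr rfl
      intro p _
      ring
    rw [div_le_iff₀ (by positivity)]
    refine h1.trans ?_
    have h2 : C2 * L ^ 3 ≤ c0 / 8 * l ^ 19 := by
      have h3 : L ^ 3 ≤ (2 * θ * l) ^ 3 := pow_le_pow_left₀ hL0.le hLup 3
      have h4 : 8 * C2 * (2 * θ) ^ 3 ≤ l * c0 := by rwa [div_le_iff₀ hc0] at hlC2
      have h5 : l ^ 4 ≤ l ^ 19 := pow_le_pow_right₀ hl1 (by norm_num)
      calc C2 * L ^ 3 ≤ C2 * (2 * θ * l) ^ 3 := mul_le_mul_of_nonneg_left h3 hC2.le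
        _ = 1 / 8 * (8 * C2 * (2 * θ) ^ 3) * l ^ 3 := by ring
        _ ≤ 1 / 8 * (l * c0) * l ^ 3 := by gcongr
        _ = c0 / 8 * l ^ 4 := by ring
        _ ≤ c0 / 8 * l ^ 19 := by gcongr
    calc C2 * L ^ 6 = C2 * L ^ 3 * L ^ 3 := by ring
      _ ≤ c0 / 8 * l ^ 19 * L ^ 3 := by gcongr
      _ = c0 / 8 * L ^ 3 * l ^ 19 := by ring
  have t3 : (∑ e ∈ D, 3 ^ e.primeFactors.card / (e : ℝ)) * ∑ s ∈ Tup (Fin 3) z y, wt s ≤
      c0 / 8 * L ^ 3 := by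
    have h1 := hspa D (l ^ 20) (one_le_pow₀ hl1) (by rw [hl]; exact hDlarge) hDcnt
    have h2 : (l ^ 20 : ℝ) ^ (1 / 4 : ℝ) = l ^ 5 := by
      rw [← Real.rpow_natCast l 20, ← Real.rpow_mul hl0'.le, ← Real.rpow_natCast l 5]
      norm_num
    rw [h2] at h1
    have h3 : C4 / l ^ 5 * C1' ≤ c0 / 8 := by
      have h4 : 8 * C4 * C1' ≤ l * c0 := by rwa [div_le_iff₀ hc0] at hlC4
      rw [div_mul_eq_mul_div, div_le_iff₀ (by positivity)]
      have h5 : l ≤ l ^ 5 := by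
        calc l = l ^ 1 := (pow_one l).symm
          _ ≤ l ^ 5 := pow_le_pow_right₀ hl1 (by norm_num)
      nlinarith
    have hw0 : 0 ≤ ∑ s ∈ Tup (Fin 3) z y, wt s := sum_nonneg fun s _ => wt_nonneg s
    calc _ ≤ C4 / l ^ 5 * (C1' * L ^ 3) := by
          apply mul_le_mul h1 t0' hw0 (by positivity)
      _ = C4 / l ^ 5 * C1' * L ^ 3 := by ring
      _ ≤ c0 / 8 * L ^ 3 := by gcongr
  have t4 : ((∑ s ∈ Tup (Fin 3) z y, wt s * VV false s) + ∑ s ∈ Tup (Fin 3) z y, wt s * VV true s) /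
        2 ^ (K + 1) ≤ c0 / 8 * L ^ 3 := by
    have h1 := hC false y hyz
    have h2 := hC true y hyz
    have h3 : (∑ s ∈ Tup (Fin 3) z y, wt s * VV false s) ≤ C * L ^ 3 := by rw [hL]; exact h1
    have h4 : (∑ s ∈ Tup (Fin 3) z y, wt s * VV true s) ≤ C * L ^ 3 := by rw [hL]; exact h2
    have h5 : (0 : ℝ) < 2 ^ (K + 1) := by positivity
    have h6 : |C| ≤ c0 / 8 * 2 ^ K := by
      rw [div_le_iff₀ hc0] at hK
      linarith
    have hL3 : 0 ≤ L ^ 3 := by positivity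
    rw [div_le_iff₀ h5]
    have h7 : C * L ^ 3 ≤ |C| * L ^ 3 := mul_le_mul_of_nonneg_right (le_abs_self C) hL3
    have h8 : |C| * L ^ 3 ≤ c0 / 8 * 2 ^ K * L ^ 3 := mul_le_mul_of_nonneg_right h6 hL3
    have h9 : (2 : ℝ) ^ (K + 1) = 2 * 2 ^ K := by rw [pow_succ]; ring
    rw [h9]
    linarith
  have t5 : c0 / 2 * θ ^ 3 * Real.log X ^ 3 ≤ c0 / 2 * L ^ 3 := by
    rw [← hl, mul_assoc, ← mul_pow]
    gcongr
  linarith

end Pool.Agent.L0h54.RZ
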