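import Pool.Agent.L0h94.RZ.Defs
import Pool.Agent.W762.RK2.EXP4a
import Pool.Agent.W655.RK.Full

set_option autoImplicit false

/-! Sums over the tuples as Euler products. -/

namespace Pool.Agent.L0h54.RZ

open Finset Pool.Agent.W262.RK Pool.Agent.W762.RK2

/-- the general product formula -/
lemma tup_prod (z y : ℕ) (a g : ℕ → ℝ) :
    ∑ s ∈ Tup (Fin 3) z y, ∏ p ∈ PS z y, (if p ∣ ∏ i, s i then g p else a p) =
      ∏ p ∈ PS z y, (a p + 3 * g p) := by
  rw [sum_Tup]
  have h1 : ∀ l : Pr z y → Option (Fin 3), ∏ p ∈ PS z y, (if p ∣ ∏ i, Dl l i then g p else a p) =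
      ∏ p : Pr z y, (l p).elim (a p) (fun _ => g p) := by
    intro l
    rw [prod_Dl, ← Finset.prod_coe_sort (PS z y)]
    apply prod_congr rfl
    intro p _
    have h2 := dvd_nb (fun p => (l p).isSome) p
    cases h : l p with
    | none => rw [if_neg (by rw [h2, h]; simp)]; rfl
    | some j => rw [if_pos (by rw [h2, h]; simp)]; rfl
  rw [sum_congr rfl fun l _ => h1 l]
  have h2 := Finset.prod_univ_sum (fun _ : Pr z y => (univ : Finset (Option (Fin 3))))
    (fun (p : Pr z y) (o : Option (Fin 3)) => o.elim (a p) (fun _ => g p))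
  rw [Fintype.piFinset_univ] at h2
  rw [← h2, ← Finset.prod_coe_sort (PS z y)]
  apply prod_congr rfl
  intro p _
  rw [Fintype.sum_option]
  simp

/-- the weight of a tuple -/
noncomputable def wt (s : Fin 3 → ℕ) : ℝ := 1 / ((∏ i, s i : ℕ) : ℝ)

lemma mem_dvd {z y : ℕ} {s : Fin 3 → ℕ} (hs : s ∈ Tup (Fin 3) z y) :
    Squarefree (∏ i, s i) ∧ (∏ i, s i).primeFactors ⊆ PS z y := by
  have h1 : s = Dl (lab (z := z) (y := y) s) := (Dl_lab hs).symm
  rw [h1, prod_Dl]
  constructor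
  · rw [nb_eq_prod]
    apply Pool.Agent.W655.RK.prod_primes_squarefree
    intro p hp
    unfold Ts at hp
    rw [Finset.mem_map] at hp
    obtain ⟨q, -, rfl⟩ := hp
    exact Pr_prime q
  · rw [nb_pf]
    intro p hp
    unfold Ts at hp
    rw [Finset.mem_map] at hp
    obtain ⟨q, -, rfl⟩ := hp
    exact q.2

lemma wt_nonneg (s : Fin 3 → ℕ) : 0 ≤ wt s := by unfold wt; positivity

lemma fac_prod {z y : ℕ} {s : Fin 3 → ℕ} (hs : s ∈ Tup (Fin 3) z y) (g : ℕ → ℝ) :
    ∏ p ∈ (∏ i, s i).primeFactors, g p = ∏ p ∈ PS z y, (if p ∣ ∏ i, s i then g p else 1) := by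
  obtain ⟨h1, h2⟩ := mem_dvd hs
  rw [← prod_filter]
  apply prod_congr _ fun _ _ => rfl
  ext p
  rw [mem_filter, Nat.mem_primeFactors]
  constructor
  · rintro ⟨h3, h4, h5⟩
    exact ⟨h2 (Nat.mem_primeFactors.2 ⟨h3, h4, h5⟩), h4⟩
  · rintro ⟨h3, h4⟩
    exact ⟨Pool.Agent.W655.RK.PS_prime h3, h4, h1.ne_zero⟩

lemma wt_eq {z y : ℕ} {s : Fin 3 → ℕ} (hs : s ∈ Tup (Fin 3) z y) :
    wt s = ∏ p ∈ (∏ i, s i).primeFactors, 1 / (p : ℝ) := by
  obtain ⟨h1, h2⟩ := mem_dvd hs
  unfold wt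
  conv_lhs => rw [← Nat.prod_primeFactors_of_squarefree h1]
  rw [Nat.cast_prod, one_div, ← prod_inv_distrib]
  apply prod_congr rfl
  intro p _
  rw [one_div]

/-- sums of multiplicative functions -/
lemma tup_mult (z y : ℕ) (g : ℕ → ℝ) :
    ∑ s ∈ Tup (Fin 3) z y, ∏ p ∈ (∏ i, s i).primeFactors, g p = ∏ p ∈ PS z y, (1 + 3 * g p) := by
  rw [← tup_prod z y (fun _ => 1) g]
  apply sum_congr rfl
  intro s hs
  exact fac_prod hs g

lemma sum_wt (z y : ℕ) : ∑ s ∈ Tup (Fin 3) z y, wt s = ∏ p ∈ PS z y, (1 + 3 * (1 / (p : ℝ))) := by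
  rw [← tup_mult z y (fun p => 1 / (p : ℝ))]
  exact sum_congr rfl fun s hs => wt_eq hs

/-- with a power of the product -/
lemma sum_rankin (z y : ℕ) (t : ℝ) : ∑ s ∈ Tup (Fin 3) z y, wt s * ((∏ i, s i : ℕ) : ℝ) ^ t =
    ∏ p ∈ PS z y, (1 + 3 * ((p : ℝ) ^ t / p)) := by
  rw [← tup_mult z y (fun p => (p : ℝ) ^ t / p)]
  apply sum_congr rfl
  intro s hs
  obtain ⟨h1, h2⟩ := mem_dvd hs
  have h3 : ((∏ i, s i : ℕ) : ℝ) ^ t = ∏ p ∈ (∏ i, s i).primeFactors, (p : ℝ) ^ t := by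
    conv_lhs => rw [← Nat.prod_primeFactors_of_squarefree h1]
    rw [Nat.cast_prod, Real.finsetProd_rpow]
    intro i _
    exact Nat.cast_nonneg i
  rw [wt_eq hs, h3, ← prod_mul_distrib]
  apply prod_congr rfl
  intro p _
  ring

/-- with a power with the number of prime factors -/
lemma sum_omega (z y : ℕ) (c : ℝ) :
    ∑ s ∈ Tup (Fin 3) z y, wt s * c ^ (∏ i, s i).primeFactors.card =
      ∏ p ∈ PS z y, (1 + 3 * (c * (1 / (p : ℝ)))) := by
  rw [← tup_mult z y (fun p => c * (1 / (p : ℝ)))]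
  apply sum_congr rfl
  intro s hs
  rw [wt_eq hs, prod_mul_distrib, prod_const]
  ring

/-- the tuples with a given divisor -/
lemma sum_div (z y : ℕ) (e : ℕ) (he : 0 < e) :
    ∑ s ∈ (Tup (Fin 3) z y).filter (fun s => e ∣ ∏ i, s i), wt s ≤
      (3 ^ e.primeFactors.card / (e : ℝ)) * ∏ p ∈ PS z y, (1 + 3 * (1 / (p : ℝ))) := by
  have hpos : ∀ p ∈ PS z y, (1 : ℝ) ≤ 1 + 3 * (1 / (p : ℝ)) := by
    intro p _
    have : (0 : ℝ) ≤ 1 / (p : ℝ) := by positivity
    linarith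
  have hP0 : (0 : ℝ) ≤ ∏ p ∈ PS z y, (1 + 3 * (1 / (p : ℝ))) :=
    prod_nonneg fun p hp => by linarith [hpos p hp]
  by_cases hex : ∃ s ∈ Tup (Fin 3) z y, e ∣ ∏ i, s i
  · obtain ⟨s₀, hs₀, hes₀⟩ := hex
    obtain ⟨k1, k2⟩ := mem_dvd hs₀
    have hesq : Squarefree e := k1.squarefree_of_dvd hes₀
    have heP : e.primeFactors ⊆ PS z y := (Nat.primeFactors_mono hes₀ k1.ne_zero).trans k2
    have h1 : ∑ s ∈ (Tup (Fin 3) z y).filter (fun s => e ∣ ∏ i, s i), wt s ≤
        ∑ s ∈ Tup (Fin 3) z y, ∏ p ∈ PS z y,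
          (if p ∣ ∏ i, s i then 1 / (p : ℝ) else if p ∈ e.primeFactors then 0 else 1) := by
      rw [sum_filter]
      apply sum_le_sum
      intro s hs
      split_ifs with hd
      · rw [wt_eq hs, fac_prod hs]
        apply le_of_eq
        apply prod_congr rfl
        intro p _
        by_cases hp : p ∣ ∏ i, s i
        · rw [if_pos hp, if_pos hp]
        · rw [if_neg hp, if_neg hp, if_neg]
          intro hpe
          exact hp ((Nat.dvd_of_mem_primeFactors hpe).trans hd)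
      · apply prod_nonneg
        intro p _
        split_ifs <;> positivity
    refine h1.trans ?_
    rw [tup_prod z y (fun p => if p ∈ e.primeFactors then 0 else 1) (fun p => 1 / (p : ℝ))]
    have h2 : ∏ p ∈ PS z y, ((if p ∈ e.primeFactors then (0 : ℝ) else 1) + 3 * (1 / (p : ℝ))) ≤
        ∏ p ∈ PS z y, ((if p ∈ e.primeFactors then 3 * (1 / (p : ℝ)) else 1) *
          (1 + 3 * (1 / (p : ℝ)))) := by
      apply prod_le_prod
      · intro p _; split_ifs <;> positivity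
      · intro p hp
        have := hpos p hp
        split_ifs
        · rw [zero_add]
          exact le_mul_of_one_le_right (by positivity) this
        · rw [one_mul]
    refine h2.trans (le_of_eq ?_)
    rw [prod_mul_distrib]
    congr 1
    rw [← prod_filter]
    have h3 : (PS z y).filter (fun p => p ∈ e.primeFactors) = e.primeFactors := by
      ext p
      rw [mem_filter]
      exact ⟨fun h => h.2, fun h => ⟨heP h, h⟩⟩
    rw [h3, prod_mul_distrib, prod_const]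
    have h4 : ∏ p ∈ e.primeFactors, 1 / (p : ℝ) = 1 / (e : ℝ) := by
      conv_rhs => rw [← Nat.prod_primeFactors_of_squarefree hesq]
      rw [Nat.cast_prod, one_div, ← prod_inv_distrib]
      apply prod_congr rfl
      intro p _
      rw [one_div]
    rw [h4]
    ring
  · rw [sum_eq_zero]
    · positivity
    · intro s hs
      rw [mem_filter] at hs
      exact absurd ⟨s, hs.1, hs.2⟩ hex

end Pool.Agent.L0h54.RZ
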